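import Pool.Agent.L5helper12.CV.Defs

/-! From the dyadic blocks of the pair sum to the local density (job CV9 of helper12, MP_8958e8_nt). -/

set_option autoImplicit false

open Filter Topology Set MeasureTheory Complex H370

namespace Pool.Agent.L5helper12.CV

open Pool.Agent.L5helper10.TV hiding GG
open Pool.Agent.L5helper12.PV
open Pool.Agent.L5helper12.TW
open Pool.Agent.Results.MP_103a5c_nt.BohrSetPairs
open Pool.Agent.Y744 (mz mz_nonneg Zb mem_Zb QS Xf Xf_pos Q2 TK ct AG Kav fav Aa Aa_int Nr pr Nr_all)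

/-- the pair sum of a block against the second moment of the block -/
lemma QS_JB_diff {R : ℝ → ℝ} {κ : ℝ} {f : ℝ → ℝ} (h : T4 R κ f) (M : ℕ) (hM : κ ≤ M) :
    Tendsto (fun V => (4 * Real.sqrt Real.pi / (Real.log V * V) *
      ∫ α in (0 : ℝ)..M, R α * Y750.OM.JB (Zb V (2 * V)) mz (α * Real.log V)) -
      QS (Zb V (2 * V)) (Zb V (2 * V)) mz (fun s => s.im) f (Real.log V) / Xf V) atTop (𝓝 0) := by
  have hpi := Real.pi_pos
  obtain ⟨D, hD, hf⟩ := h.decay
  obtain ⟨C, B0, V0, hC, hB0, hV0, hblk, -⟩ := PP_bd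
  have hz : Tendsto (fun V : ℝ => Real.pi ^ 2 * D * 3200 * C * (2 * Real.pi) * ((Real.log V)⁻¹ ^ 2)) atTop
      (𝓝 (Real.pi ^ 2 * D * 3200 * C * (2 * Real.pi) * (0 ^ 2))) := by
    apply Tendsto.const_mul
    exact (tendsto_inv_atTop_zero.comp Real.tendsto_log_atTop).pow 2
  norm_num at hz
  apply squeeze_zero_norm' _ hz
  filter_upwards [eventually_ge_atTop V0] with V hV
  have hV20 : 20 ≤ V := hV0.trans hV
  have hV0' : 0 < V := by linarith
  have hL : 0 < Real.log V := Real.log_pos (by linarith)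
  have hX := Xf_pos (V := V) (by linarith)
  have g1 := gauss_rem hD hf (Zb V (2 * V)) hL
  rw [← JB_int h (Zb V (2 * V)) (Real.log V), JB_sym h M hM] at g1
  have g2 : 4 * Real.sqrt Real.pi / (Real.log V * V) *
    (∫ α in (0 : ℝ)..M, R α * Y750.OM.JB (Zb V (2 * V)) mz (α * Real.log V)) =
    (1 / Real.sqrt Real.pi * (2 * ∫ α in (0 : ℝ)..M, R α * Y750.OM.JB (Zb V (2 * V)) mz (α * Real.log V))) / Xf V := by
    unfold Xf
    have hsq : Real.sqrt Real.pi ≠ 0 := (Real.sqrt_pos.2 hpi).ne'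
    have hsq2 : Real.sqrt Real.pi ^ 2 = Real.pi := Real.sq_sqrt hpi.le
    generalize (∫ α in (0 : ℝ)..M, R α * Y750.OM.JB (Zb V (2 * V)) mz (α * Real.log V)) = I
    generalize Real.sqrt Real.pi = s at *
    rw [← hsq2]
    field_simp
    ring
  rw [g2, ← sub_div, norm_div, Real.norm_of_nonneg hX.le, div_le_iff₀ hX]
  refine g1.trans ?_
  have g3 := hblk V hV
  calc Real.pi ^ 2 * D / Real.log V ^ 2 * (3200 * TH803TW.PP1 (Zb V (2 * V)) mz (fun s => s.im) (Real.log V)) ≤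
      Real.pi ^ 2 * D / Real.log V ^ 2 * (3200 * (C * (V * Real.log V))) := by gcongr
    _ = Real.pi ^ 2 * D * 3200 * C * (2 * Real.pi) * (Real.log V ^ 2)⁻¹ * Xf V := by
      unfold Xf
      field_simp

/-- the local density against the second moment of the block -/
lemma NU_JB_diff {k : ℝ → ℝ} {ℓ : ℕ} {C B : ℝ} (h : KW k ℓ C B) :
    Tendsto (fun T => (∫ y in (1 : ℝ)..2, NU k ℓ T y) - 4 * Real.sqrt Real.pi / (Real.log T * T) *
      ∫ α in (0 : ℝ)..ℓ, k α * Y750.OM.JB (Zb T (2 * T)) mz (α * Real.log T)) atTop (𝓝 0) := by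
  obtain ⟨CJ, hCJ0, hCJ⟩ := JB_close
  have hB0 := h.B0
  have hz : Tendsto (fun T : ℝ => 4 * Real.sqrt Real.pi * (B * CJ * ℓ) * (Real.log T / T)) atTop
      (𝓝 (4 * Real.sqrt Real.pi * (B * CJ * ℓ) * 0)) := by
    apply Tendsto.const_mul
    have := Real.isLittleO_log_id_atTop.tendsto_div_nhds_zero
    exact this
  rw [mul_zero] at hz
  apply squeeze_zero_norm' _ hz
  filter_upwards [eventually_ge_atTop 4] with T hT
  have hT0 : 0 < T := by linarith
  have hL : 0 < Real.log T := Real.log_pos (by linarith)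
  rw [NU_block h.cont ℓ T hT]
  have e1 : ∫ α in (0 : ℝ)..ℓ, k α * Y750.OM.JB (Zb T (2 * T)) mz (α * Real.log T) =
      1 / Real.log T * ∫ u in Ioc 0 (ℓ * Real.log T), k (u / Real.log T) * Y750.OM.JB (Zb T (2 * T)) mz u := by
    have e2 := intervalIntegral.integral_comp_mul_right (a := 0) (b := ℓ)
      (fun u => k (u / Real.log T) * Y750.OM.JB (Zb T (2 * T)) mz u) hL.ne'
    rw [zero_mul, smul_eq_mul, intervalIntegral.integral_of_le (by positivity : (0 : ℝ) ≤ ℓ * Real.log T)] at e2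
    rw [one_div, ← e2]
    apply intervalIntegral.integral_congr
    intro α _
    simp only
    rw [mul_div_assoc, div_self hL.ne', mul_one]
  have hkc := h.cont
  have hJc := Y750.OM.JB_cont (Zb T (2 * T)) mz
  have hi1 : IntegrableOn (fun u => k (u / Real.log T) * Y750.OM.JB (Zb T (2 * T)) mz u) (Ioc 0 (ℓ * Real.log T)) :=
    ((by fun_prop : Continuous fun u => k (u / Real.log T) * Y750.OM.JB (Zb T (2 * T)) mz u).continuousOn.integrableOn_Icc).mono_set
      Ioc_subset_Icc_self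
  have hi2 : IntegrableOn (fun u => k (u / Real.log T) * (∫ t in T..(2 * T), ‖SP (Zw T) u t‖ ^ 2))
      (Ioc 0 (ℓ * Real.log T)) := by
    have := MS_ii hkc ℓ (Zw T) (Real.log T) (fun _ => 1) T (2 * T) (by linarith) continuousOn_const
    simpa using this
  have e3 : 4 * Real.sqrt Real.pi / (Real.log T ^ 2 * T) *
      (∫ u in Ioc 0 (ℓ * Real.log T), k (u / Real.log T) * (∫ t in T..(2 * T), ‖SP (Zw T) u t‖ ^ 2)) -
      4 * Real.sqrt Real.pi / (Real.log T * T) * (1 / Real.log T *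
        ∫ u in Ioc 0 (ℓ * Real.log T), k (u / Real.log T) * Y750.OM.JB (Zb T (2 * T)) mz u) =
      4 * Real.sqrt Real.pi / (Real.log T ^ 2 * T) * ∫ u in Ioc 0 (ℓ * Real.log T), k (u / Real.log T) *
        ((∫ t in T..(2 * T), ‖SP (Zw T) u t‖ ^ 2) - Y750.OM.JB (Zb T (2 * T)) mz u) := by
    have : (fun u => k (u / Real.log T) *
        ((∫ t in T..(2 * T), ‖SP (Zw T) u t‖ ^ 2) - Y750.OM.JB (Zb T (2 * T)) mz u)) = fun u =>
        k (u / Real.log T) * (∫ t in T..(2 * T), ‖SP (Zw T) u t‖ ^ 2) -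
          k (u / Real.log T) * Y750.OM.JB (Zb T (2 * T)) mz u := by funext u; ring
    rw [this, integral_sub hi2 hi1]
    field_simp
  rw [e1, e3, norm_mul, Real.norm_of_nonneg (by positivity)]
  have h4 : ‖∫ u in Ioc 0 (ℓ * Real.log T), k (u / Real.log T) *
        ((∫ t in T..(2 * T), ‖SP (Zw T) u t‖ ^ 2) - Y750.OM.JB (Zb T (2 * T)) mz u)‖ ≤
      B * (CJ * Real.log T ^ 2) * (ℓ * Real.log T) := by
    have := norm_setIntegral_le_of_norm_le_const (μ := volume) (s := Ioc 0 (ℓ * Real.log T))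
      (f := fun u => k (u / Real.log T) *
        ((∫ t in T..(2 * T), ‖SP (Zw T) u t‖ ^ 2) - Y750.OM.JB (Zb T (2 * T)) mz u))
      (C := B * (CJ * Real.log T ^ 2)) (by rw [Real.volume_Ioc]; exact ENNReal.ofReal_lt_top) (fun u _ => by
        rw [norm_mul, Real.norm_of_nonneg (h.nn _)]
        exact mul_le_mul (h.bd _) (hCJ T hT u) (norm_nonneg _) hB0)
    rwa [Real.volume_real_Ioc_of_le (by positivity), sub_zero] at this
  calc 4 * Real.sqrt Real.pi / (Real.log T ^ 2 * T) * ‖∫ u in Ioc 0 (ℓ * Real.log T), k (u / Real.log T) *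
        ((∫ t in T..(2 * T), ‖SP (Zw T) u t‖ ^ 2) - Y750.OM.JB (Zb T (2 * T)) mz u)‖ ≤
      4 * Real.sqrt Real.pi / (Real.log T ^ 2 * T) * (B * (CJ * Real.log T ^ 2) * (ℓ * Real.log T)) :=
        mul_le_mul_of_nonneg_left h4 (by positivity)
    _ = _ := by field_simp

theorem NU_of_QS {R : ℝ → ℝ} {κ : ℝ} {f : ℝ → ℝ} (h : T4 R κ f) (M : ℕ) (hM : κ ≤ M) (hM1 : 1 ≤ M) {C B : ℝ}
    (hKW : KW R M C B) (c : ℝ)
    (hlim : Tendsto (fun V => QS (Zb V (2 * V)) (Zb V (2 * V)) mz (fun s => s.im) f (Real.log V) / Xf V)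
      atTop (𝓝 c)) :
    Tendsto (fun T => ∫ y in (1 : ℝ)..2, NU R M T y) atTop (𝓝 c) := by
  have h1 := ((NU_JB_diff hKW).add (QS_JB_diff h M hM)).add hlim
  rw [zero_add, zero_add] at h1
  refine h1.congr fun T => ?_
  ring

end Pool.Agent.L5helper12.CV
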